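import Mathlib
import Pool.Agent.H629R2.EU.Defs
import Pool.Agent.H629R2.EW.Stubs

set_option autoImplicit false

namespace Pool.Agent.H629R2.EW

open MeasureTheory Set Pool.Agent.H629R2.EU

theorem laplace_sub_const (H : ℝ × ℝ → ℝ) (m : ℝ) (q : ℝ × ℝ) :
    dx (dx (fun z => H z - m)) q + dy (dy (fun z => H z - m)) q =
      dx (dx H) q + dy (dy H) q := by
  have h1 : dx (fun z => H z - m) = dx H := by
    funext p
    simp only [dx]
    rw [fderiv_sub_const]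
  have h2 : dy (fun z => H z - m) = dy H := by
    funext p
    simp only [dy]
    rw [fderiv_sub_const]
  rw [h1, h2]

theorem cap_thm (hCAPH : CAPH_stmt) (hPOTL : POTL_stmt) (hPOTM : POTM_stmt)
    (u : ℝ × ℝ → ℝ) (hu : EntireSol u) (hq : ¬ IsQuad u)
    (hpos : ∀ p, 0 < dx (dx u) p)
    (hdense : ∀ α β ε : ℝ, 0 < α → 0 < ε →
      ∃ p : ℝ × ℝ, |dx (dx u) p - α| < ε ∧ |dx (dy u) p - β| < ε)
    (K : Set (ℝ × ℝ)) (hK : IsCompact K) (hKpos : ∀ q ∈ K, 0 < q.1)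
    (hom : ∀ p, (dx (dx u) p, dx (dy u) p) ∉ K)
    (μ : Measure (ℝ × ℝ)) (hμ : IsFiniteMeasure μ) (hμK : μ Kᶜ = 0)
    (M : ℝ) (hM : ∀ z, z ∉ K → U μ z ≤ M) : μ = 0 := by
  by_contra hne
  obtain ⟨a1, a2, m, ha1, ha12, hout, z0, hz0K, hz0pos, hz0⟩ := hPOTM μ K hμ hK hμK hne hKpos
  obtain ⟨hC2, hLap⟩ := hPOTL μ K hμ hK hμK
  have hKo : IsOpen Kᶜ := hK.isClosed.isOpen_compl
  set Ω : Set (ℝ × ℝ) := Kᶜ ∩ {q | 0 < q.1} with hΩ
  have hΩo : IsOpen Ω := hKo.inter (isOpen_lt continuous_const continuous_fst)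
  have hkey := hCAPH u (fun z => U μ z - m) Ω a1 a2 (M - m) hu hq hΩo (fun q hq => hq.2)
    (fun p => ⟨hom p, hpos p⟩)
    ((hC2.mono inter_subset_left).sub contDiffOn_const)
    (fun q hq => by rw [laplace_sub_const, hLap q hq.1])
    (fun q hq => by have := hM q hq.1; linarith) ha1 ha12
    (fun q hq h => by have := hout q h hq.2; linarith)
  -- the set where the potential exceeds `m` is open and nonempty
  have hcont : ContinuousOn (U μ) Kᶜ := hC2.continuousOn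
  have hcat : ContinuousAt (U μ) z0 := hcont.continuousAt (hKo.mem_nhds hz0K)
  have hev : ∀ᶠ z in nhds z0, m < U μ z ∧ 0 < z.1 :=
    (hcat.eventually (lt_mem_nhds hz0)).and
      (continuous_fst.continuousAt.eventually (lt_mem_nhds hz0pos))
  obtain ⟨ε, hε, hball⟩ := Metric.eventually_nhds_iff.1 hev
  obtain ⟨p, hp1, hp2⟩ := hdense z0.1 z0.2 ε hz0pos hε
  have hd : dist (dx (dx u) p, dx (dy u) p) z0 < ε := by
    rw [Prod.dist_eq, Real.dist_eq, Real.dist_eq]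
    exact max_lt hp1 hp2
  have h3 := (hball hd).1
  have h4 := hkey p
  simp only [V] at h4
  linarith

end Pool.Agent.H629R2.EW
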