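import Mathlib
import Pool.Agent.H629R2.EW.Stubs

set_option autoImplicit false

namespace Pool.Agent.H629R2.EW

open MeasureTheory Set Pool.Agent.H629R2.EU Filter Topology

namespace POTLb

variable {μ : Measure (ℝ × ℝ)}

/-- convolution with a measure -/
noncomputable def C (μ : Measure (ℝ × ℝ)) (g : ℝ × ℝ → ℝ) (z : ℝ × ℝ) : ℝ := ∫ w, g (z - w) ∂μ

theorem C_contDiff [IsFiniteMeasure μ] {g : ℝ × ℝ → ℝ} {n : ℕ∞} (hg : ContDiff ℝ n g)
    (hs : HasCompactSupport g) : ContDiff ℝ n (C μ g) := by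
  have h := hs.contDiff_convolution_right (μ := μ) (ContinuousLinearMap.mul ℝ ℝ)
    (f := fun _ => (1:ℝ)) (locallyIntegrable_const (1:ℝ)) hg
  have : C μ g = MeasureTheory.convolution (fun _ => (1:ℝ)) g (ContinuousLinearMap.mul ℝ ℝ) μ := by
    funext z
    simp [C, MeasureTheory.convolution]
  rw [this]
  exact h

theorem C_hasFDerivAt [IsFiniteMeasure μ] {g : ℝ × ℝ → ℝ} (hg : ContDiff ℝ 1 g)
    (hs : HasCompactSupport g) (z : ℝ × ℝ) :
    HasFDerivAt (C μ g) (∫ w, fderiv ℝ g (z - w) ∂μ) z := by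
  have hc : Continuous (fderiv ℝ g) := hg.continuous_fderiv one_ne_zero
  have hsc : HasCompactSupport (fderiv ℝ g) := hs.fderiv ℝ
  obtain ⟨B, hB⟩ := hc.bounded_above_of_compact_support hsc
  obtain ⟨B', hB'⟩ := hg.continuous.bounded_above_of_compact_support hs
  have hd : Differentiable ℝ g := hg.differentiable one_ne_zero
  refine hasFDerivAt_integral_of_dominated_of_fderiv_le (𝕜 := ℝ) (s := univ)
    (F := fun z w => g (z - w)) (F' := fun z w => fderiv ℝ g (z - w)) (bound := fun _ => B)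
    univ_mem ?_ ?_ ?_ ?_ ?_ ?_
  · exact Eventually.of_forall fun x =>
      (hg.continuous.comp (continuous_const.sub continuous_id)).aestronglyMeasurable
  · refine Integrable.of_bound
      (hg.continuous.comp (continuous_const.sub continuous_id)).aestronglyMeasurable B' ?_
    exact Eventually.of_forall fun w => hB' _
  · exact (hc.comp (continuous_const.sub continuous_id)).aestronglyMeasurable
  · exact Eventually.of_forall fun w x _ => hB _
  · exact integrable_const B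
  · refine Eventually.of_forall fun w x _ => ?_
    have := (hd (x - w)).hasFDerivAt.comp x ((hasFDerivAt_id x).sub_const w)
    simpa [Function.comp_def] using this

theorem C_dx [IsFiniteMeasure μ] {g : ℝ × ℝ → ℝ} (hg : ContDiff ℝ 1 g)
    (hs : HasCompactSupport g) : dx (C μ g) = C μ (dx g) := by
  funext z
  have hc : Continuous (fderiv ℝ g) := hg.continuous_fderiv one_ne_zero
  have hsc : HasCompactSupport (fderiv ℝ g) := hs.fderiv ℝ
  obtain ⟨B, hB⟩ := hc.bounded_above_of_compact_support hsc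
  have hint : Integrable (fun w => fderiv ℝ g (z - w)) μ :=
    Integrable.of_bound (hc.comp (continuous_const.sub continuous_id)).aestronglyMeasurable B
      (Eventually.of_forall fun w => hB _)
  simp only [dx, (C_hasFDerivAt (μ := μ) hg hs z).fderiv, C]
  rw [ContinuousLinearMap.integral_apply hint]

theorem C_dy [IsFiniteMeasure μ] {g : ℝ × ℝ → ℝ} (hg : ContDiff ℝ 1 g)
    (hs : HasCompactSupport g) : dy (C μ g) = C μ (dy g) := by
  funext z
  have hc : Continuous (fderiv ℝ g) := hg.continuous_fderiv one_ne_zero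
  have hsc : HasCompactSupport (fderiv ℝ g) := hs.fderiv ℝ
  obtain ⟨B, hB⟩ := hc.bounded_above_of_compact_support hsc
  have hint : Integrable (fun w => fderiv ℝ g (z - w)) μ :=
    Integrable.of_bound (hc.comp (continuous_const.sub continuous_id)).aestronglyMeasurable B
      (Eventually.of_forall fun w => hB _)
  simp only [dy, (C_hasFDerivAt (μ := μ) hg hs z).fderiv, C]
  rw [ContinuousLinearMap.integral_apply hint]

/-- squared norm -/
def sq (ζ : ℝ × ℝ) : ℝ := ζ.1 ^ 2 + ζ.2 ^ 2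

theorem sq_pos {ζ : ℝ × ℝ} (h : ζ ≠ 0) : 0 < sq ζ := by
  unfold sq
  by_contra hcon
  apply h
  have h1 : ζ.1 = 0 := by nlinarith [sq_nonneg ζ.1, sq_nonneg ζ.2]
  have h2 : ζ.2 = 0 := by nlinarith [sq_nonneg ζ.1, sq_nonneg ζ.2]
  exact Prod.ext h1 h2

theorem sq_contDiff {n : WithTop ℕ∞} : ContDiff ℝ n sq := by
  unfold sq
  exact (contDiff_fst.pow 2).add (contDiff_snd.pow 2)

theorem sq_hasFDerivAt (ζ : ℝ × ℝ) : HasFDerivAt sq ((2 * ζ.1) • ContinuousLinearMap.fst ℝ ℝ ℝ +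
      (2 * ζ.2) • ContinuousLinearMap.snd ℝ ℝ ℝ) ζ := by
  have hf : HasFDerivAt (fun q : ℝ × ℝ => q.1) (ContinuousLinearMap.fst ℝ ℝ ℝ) ζ :=
    hasFDerivAt_fst
  have hs : HasFDerivAt (fun q : ℝ × ℝ => q.2) (ContinuousLinearMap.snd ℝ ℝ ℝ) ζ :=
    hasFDerivAt_snd
  have h2 : HasFDerivAt sq _ ζ := (hf.pow 2).add (hs.pow 2)
  refine h2.congr_fderiv ?_
  ext <;> simp

/-- the logarithm, and its derivatives -/
noncomputable def Lg (ζ : ℝ × ℝ) : ℝ := Real.log (sq ζ)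

theorem Lg_hasFDerivAt {ζ : ℝ × ℝ} (h : ζ ≠ 0) :
    HasFDerivAt Lg ((sq ζ)⁻¹ • ((2 * ζ.1) • ContinuousLinearMap.fst ℝ ℝ ℝ +
      (2 * ζ.2) • ContinuousLinearMap.snd ℝ ℝ ℝ)) ζ := by
  exact (sq_hasFDerivAt ζ).log (sq_pos h).ne'

theorem Lg_dx {ζ : ℝ × ℝ} (h : ζ ≠ 0) : dx Lg ζ = 2 * ζ.1 / sq ζ := by
  simp only [dx, (Lg_hasFDerivAt h).fderiv]
  simp
  field_simp

theorem Lg_dy {ζ : ℝ × ℝ} (h : ζ ≠ 0) : dy Lg ζ = 2 * ζ.2 / sq ζ := by
  simp only [dy, (Lg_hasFDerivAt h).fderiv]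
  simp
  field_simp

theorem Lg_lap {ζ : ℝ × ℝ} (h : ζ ≠ 0) : dx (dx Lg) ζ + dy (dy Lg) ζ = 0 := by
  have hne : ∀ᶠ x in 𝓝 ζ, x ≠ 0 := isOpen_ne.mem_nhds h
  have e1 : dx Lg =ᶠ[𝓝 ζ] fun x => 2 * x.1 / sq x := by
    filter_upwards [hne] with x hx using Lg_dx hx
  have e2 : dy Lg =ᶠ[𝓝 ζ] fun x => 2 * x.2 / sq x := by
    filter_upwards [hne] with x hx using Lg_dy hx
  have hsq := sq_hasFDerivAt ζ
  have hf : HasFDerivAt (fun q : ℝ × ℝ => 2 * q.1) ((2:ℝ) • ContinuousLinearMap.fst ℝ ℝ ℝ) ζ :=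
    hasFDerivAt_fst.const_mul 2
  have hs : HasFDerivAt (fun q : ℝ × ℝ => 2 * q.2) ((2:ℝ) • ContinuousLinearMap.snd ℝ ℝ ℝ) ζ :=
    hasFDerivAt_snd.const_mul 2
  have hp := sq_pos h
  have hinv : HasFDerivAt (fun x => (sq x)⁻¹) _ ζ :=
    (hasDerivAt_inv hp.ne').comp_hasFDerivAt ζ hsq
  have d1 := hf.mul hinv
  have d2 := hs.mul hinv
  have f1 : dx (dx Lg) ζ = 2 / sq ζ - 2 * ζ.1 * (2 * ζ.1) / sq ζ ^ 2 := by
    have : dx (dx Lg) ζ = fderiv ℝ (fun x : ℝ × ℝ => 2 * x.1 * (sq x)⁻¹) ζ (1, 0) := by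
      simp only [dx]
      rw [Filter.EventuallyEq.fderiv_eq (f₁ := dx Lg) (by simpa [div_eq_mul_inv] using e1)]
    rw [this]
    erw [HasFDerivAt.fderiv d1]
    simp
    field_simp
    ring
  have f2 : dy (dy Lg) ζ = 2 / sq ζ - 2 * ζ.2 * (2 * ζ.2) / sq ζ ^ 2 := by
    have : dy (dy Lg) ζ = fderiv ℝ (fun x : ℝ × ℝ => 2 * x.2 * (sq x)⁻¹) ζ (0, 1) := by
      simp only [dy]
      rw [Filter.EventuallyEq.fderiv_eq (f₁ := dy Lg) (by simpa [div_eq_mul_inv] using e2)]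
    rw [this]
    erw [HasFDerivAt.fderiv d2]
    simp
    field_simp
    ring
  rw [f1, f2]
  have : sq ζ = ζ.1 ^ 2 + ζ.2 ^ 2 := rfl
  field_simp
  rw [this]
  ring

theorem Lg_contDiffAt {ζ : ℝ × ℝ} (h : ζ ≠ 0) {n : WithTop ℕ∞} : ContDiffAt ℝ n Lg ζ :=
  (sq_contDiff.contDiffAt).log (sq_pos h).ne'

/-- smooth compactly supported function equal to `Lg` on an annulus -/
theorem exists_cut (δ R : ℝ) (hδ : 0 < δ) (hR : 0 < R) :
    ∃ g : ℝ × ℝ → ℝ, ContDiff ℝ 2 g ∧ HasCompactSupport g ∧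
      ∀ ζ : ℝ × ℝ, δ < ‖ζ‖ → ‖ζ‖ < R → g =ᶠ[𝓝 ζ] Lg := by
  let b1 : ContDiffBump (0 : ℝ × ℝ) := ⟨δ / 2, δ, by linarith, by linarith⟩
  let b2 : ContDiffBump (0 : ℝ × ℝ) := ⟨R, R + 1, hR, by linarith⟩
  refine ⟨fun ζ => b2 ζ * ((1 - b1 ζ) * Lg ζ), ?_, ?_, ?_⟩
  · rw [contDiff_iff_contDiffAt]
    intro ζ
    by_cases h : ζ = 0
    · subst h
      have hev : (fun ζ => b2 ζ * ((1 - b1 ζ) * Lg ζ)) =ᶠ[𝓝 0] fun _ => 0 := by
        have : Metric.ball (0 : ℝ × ℝ) (δ / 2) ∈ 𝓝 (0 : ℝ × ℝ) :=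
          Metric.ball_mem_nhds _ (by linarith)
        filter_upwards [this] with x hx
        have : b1 x = 1 := b1.one_of_mem_closedBall (Metric.ball_subset_closedBall hx)
        simp [this]
      exact contDiffAt_const.congr_of_eventuallyEq hev
    · exact b2.contDiffAt.mul ((contDiffAt_const.sub b1.contDiffAt).mul (Lg_contDiffAt h))
  · exact b2.hasCompactSupport.mul_right
  · intro ζ h1 h2
    have ho1 : {x : ℝ × ℝ | δ < ‖x‖} ∈ 𝓝 ζ := (isOpen_lt continuous_const continuous_norm).mem_nhds h1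
    have ho2 : {x : ℝ × ℝ | ‖x‖ < R} ∈ 𝓝 ζ := (isOpen_lt continuous_norm continuous_const).mem_nhds h2
    filter_upwards [ho1, ho2] with x hx1 hx2
    have e1 : b1 x = 0 := by
      apply b1.zero_of_le_dist
      have hx1' : δ < ‖x‖ := hx1
      simpa [dist_zero_right] using hx1'.le
    have e2 : b2 x = 1 := by
      apply b2.one_of_mem_closedBall
      have hx2' : ‖x‖ < R := hx2
      simpa [Metric.mem_closedBall, dist_zero_right] using hx2'.le
    simp [e1, e2]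

theorem dx_congr {f g : ℝ × ℝ → ℝ} {z : ℝ × ℝ} (h : f =ᶠ[𝓝 z] g) : dx f =ᶠ[𝓝 z] dx g := by
  have := h.fderiv (𝕜 := ℝ)
  filter_upwards [this] with x hx
  simp only [dx, hx]

theorem dy_congr {f g : ℝ × ℝ → ℝ} {z : ℝ × ℝ} (h : f =ᶠ[𝓝 z] g) : dy f =ᶠ[𝓝 z] dy g := by
  have := h.fderiv (𝕜 := ℝ)
  filter_upwards [this] with x hx
  simp only [dy, hx]

theorem dx_smul (a : ℝ) (f : ℝ × ℝ → ℝ) : dx (fun z => a * f z) = fun z => a * dx f z := by
  funext z
  simp only [dx]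
  have : (fun z => a * f z) = a • f := rfl
  rw [this, fderiv_const_smul_field]
  rfl

theorem dy_smul (a : ℝ) (f : ℝ × ℝ → ℝ) : dy (fun z => a * f z) = fun z => a * dy f z := by
  funext z
  simp only [dy]
  have : (fun z => a * f z) = a • f := rfl
  rw [this, fderiv_const_smul_field]
  rfl

theorem dx_cs {g : ℝ × ℝ → ℝ} (hs : HasCompactSupport g) : HasCompactSupport (dx g) :=
  (hs.fderiv ℝ).comp_left (g := fun L : (ℝ × ℝ) →L[ℝ] ℝ => L (1, 0)) (by simp)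

theorem dy_cs {g : ℝ × ℝ → ℝ} (hs : HasCompactSupport g) : HasCompactSupport (dy g) :=
  (hs.fderiv ℝ).comp_left (g := fun L : (ℝ × ℝ) →L[ℝ] ℝ => L (0, 1)) (by simp)

theorem dx_c1 {g : ℝ × ℝ → ℝ} (hg : ContDiff ℝ 2 g) : ContDiff ℝ 1 (dx g) :=
  (hg.fderiv_right (m := 1) (by norm_num)).clm_apply contDiff_const

theorem dy_c1 {g : ℝ × ℝ → ℝ} (hg : ContDiff ℝ 2 g) : ContDiff ℝ 1 (dy g) :=
  (hg.fderiv_right (m := 1) (by norm_num)).clm_apply contDiff_const

theorem d_c0 {g : ℝ × ℝ → ℝ} (hg : ContDiff ℝ 1 g) (v : ℝ × ℝ) :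
    Continuous (fun p => fderiv ℝ g p v) :=
  (hg.continuous_fderiv one_ne_zero).clm_apply continuous_const

theorem C_int [IsFiniteMeasure μ] {g : ℝ × ℝ → ℝ} (hg : Continuous g)
    (hs : HasCompactSupport g) (z : ℝ × ℝ) : Integrable (fun w => g (z - w)) μ := by
  obtain ⟨B, hB⟩ := hg.bounded_above_of_compact_support hs
  exact Integrable.of_bound (hg.comp (continuous_const.sub continuous_id)).aestronglyMeasurable B
      (Eventually.of_forall fun w => hB _)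

end POTLb

open POTLb in
theorem POTL_proof : POTL_stmt := by
  intro μ K hμ hK hμK
  have hKo : IsOpen Kᶜ := hK.isClosed.isOpen_compl
  have hae : ∀ᵐ w ∂μ, w ∈ K := by
    rw [ae_iff]
    exact hμK
  have key : ∀ z0 ∈ Kᶜ, ∃ g : ℝ × ℝ → ℝ, ContDiff ℝ 2 g ∧ HasCompactSupport g ∧
      (∀ w ∈ K, g =ᶠ[𝓝 (z0 - w)] Lg ∧ z0 - w ≠ 0) ∧
      U μ =ᶠ[𝓝 z0] fun z => -(1 / 2) * C μ g z := by
    intro z0 hz0
    obtain ⟨ρ, hρ, hball⟩ := Metric.isOpen_iff.1 hKo z0 hz0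
    obtain ⟨B, hB⟩ := hK.isBounded.exists_norm_le
    have hfar : ∀ z : ℝ × ℝ, ‖z - z0‖ < ρ / 2 → ∀ w ∈ K, ρ / 4 < ‖z - w‖ ∧
        ‖z - w‖ < ‖z0‖ + ρ + |B| + 1 := by
      intro z hz w hw
      constructor
      · have h1 : ρ ≤ ‖z0 - w‖ := by
          by_contra hcon
          push Not at hcon
          have : w ∈ Metric.ball z0 ρ := by
            rw [Metric.mem_ball, dist_eq_norm, ← norm_neg]
            simpa using hcon
          exact hball this hw
        have h2 : ‖z0 - w‖ ≤ ‖z0 - z‖ + ‖z - w‖ := norm_sub_le_norm_sub_add_norm_sub _ _ _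
        have h3 : ‖z0 - z‖ = ‖z - z0‖ := norm_sub_rev _ _
        linarith
      · have h1 : ‖z - w‖ ≤ ‖z‖ + ‖w‖ := norm_sub_le _ _
        have h2 : ‖w‖ ≤ |B| := (hB w hw).trans (le_abs_self B)
        have h3 : ‖z‖ ≤ ‖z - z0‖ + ‖z0‖ := by
          have := norm_add_le (z - z0) z0
          simpa using this
        linarith
    obtain ⟨g, hg, hs, hgL⟩ := exists_cut (ρ / 4) (‖z0‖ + ρ + |B| + 1) (by linarith)
      (by have := norm_nonneg z0; have := abs_nonneg B; linarith)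
    refine ⟨g, hg, hs, ?_, ?_⟩
    · intro w hw
      have h := hfar z0 (by simp; linarith) w hw
      refine ⟨hgL _ h.1 h.2, ?_⟩
      intro h0
      rw [h0, norm_zero] at h
      linarith [h.1]
    · have : Metric.ball z0 (ρ / 2) ∈ 𝓝 z0 := Metric.ball_mem_nhds _ (by linarith)
      filter_upwards [this] with z hz
      rw [Metric.mem_ball, dist_eq_norm] at hz
      simp only [U, C]
      congr 1
      apply integral_congr_ae
      filter_upwards [hae] with w hw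
      have h := hfar z hz w hw
      have := (hgL _ h.1 h.2).eq_of_nhds
      rw [this]
      rfl
  refine ⟨?_, ?_⟩
  · intro z0 hz0
    obtain ⟨g, hg, hs, -, hU⟩ := key z0 hz0
    have hC : ContDiff ℝ 2 (C μ g) := C_contDiff (n := 2) hg hs
    exact ((contDiff_const.mul hC).contDiffAt.congr_of_eventuallyEq hU).contDiffWithinAt
  · intro z0 hz0
    obtain ⟨g, hg, hs, hgw, hU⟩ := key z0 hz0
    have hg1 : ContDiff ℝ 1 g := hg.of_le (by norm_num)
    have e1 : dx (dx (U μ)) z0 = -(1 / 2) * C μ (dx (dx g)) z0 := by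
      rw [(dx_congr (dx_congr hU)).eq_of_nhds, dx_smul, dx_smul, C_dx hg1 hs,
        C_dx (dx_c1 hg) (dx_cs hs)]
    have e2 : dy (dy (U μ)) z0 = -(1 / 2) * C μ (dy (dy g)) z0 := by
      rw [(dy_congr (dy_congr hU)).eq_of_nhds, dy_smul, dy_smul, C_dy hg1 hs,
        C_dy (dy_c1 hg) (dy_cs hs)]
    rw [e1, e2, ← mul_add]
    have hsum : C μ (dx (dx g)) z0 + C μ (dy (dy g)) z0 = 0 := by
      simp only [C]
      have i1 : Integrable (fun w => dx (dx g) (z0 - w)) μ :=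
        C_int (g := dx (dx g)) (d_c0 (dx_c1 hg) (1, 0)) (dx_cs (dx_cs hs)) z0
      have i2 : Integrable (fun w => dy (dy g) (z0 - w)) μ :=
        C_int (g := dy (dy g)) (d_c0 (dy_c1 hg) (0, 1)) (dy_cs (dy_cs hs)) z0
      rw [← integral_add i1 i2]
      rw [← integral_zero (ℝ × ℝ) ℝ (μ := μ)]
      apply integral_congr_ae
      filter_upwards [hae] with w hw
      obtain ⟨h1, h2⟩ := hgw w hw
      rw [(dx_congr (dx_congr h1)).eq_of_nhds, (dy_congr (dy_congr h1)).eq_of_nhds]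
      exact Lg_lap h2
    rw [hsum, mul_zero]

end Pool.Agent.H629R2.EW
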